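import Mathlib

set_option autoImplicit false

namespace Pool.Agent.Results.MP_34bddf_lc.DenseOutside

/-- `βℕ`: the ultrafilters on the positive integers, with Mathlib's Stone topology
(generated by the basic sets `{F | A ∈ F}`). -/
abbrev BetaN := Ultrafilter ℕ+

/-- The extension of addition: `A ∈ uadd F G` iff `{n | {m | n + m ∈ A} ∈ G} ∈ F`
(see `mem_uadd`). -/
def uadd (F G : BetaN) : BetaN := F.bind (fun n => G.map (fun m => n + m))

/-- The extension of multiplication: `A ∈ umul F G` iff `{n | {m | n * m ∈ A} ∈ G} ∈ F`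
(see `mem_umul`). -/
def umul (F G : BetaN) : BetaN := F.bind (fun n => G.map (fun m => n * m))

/-- `MAX`: the ultrafilters containing `nℕ` for every positive integer `n`. -/
def MAX : Set BetaN := {F | ∀ n : ℕ+, Set.range (fun k : ℕ+ => n * k) ∈ F}

/-- `Γ`: the closure of the set of additive idempotents. -/
def Gamma : Set BetaN := closure {F | uadd F F = F}

/-- The two-sided multiplicative ideal generated by `T`:
`T ∪ βℕ·T ∪ T·βℕ ∪ βℕ·T·βℕ`. -/
def mulIdealGen (T : Set BetaN) : Set BetaN :=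
  T ∪ {H | ∃ F, ∃ G ∈ T, H = umul F G} ∪ {H | ∃ G ∈ T, ∃ F, H = umul G F} ∪
    {H | ∃ F, ∃ G ∈ T, ∃ F', H = umul (umul F G) F'}

/-- `ℕ*`: the nonprincipal ultrafilters. -/
def Free : Set BetaN := {F | ∀ n : ℕ+, F ≠ pure n}

/-- `ℕ* + ℕ*`. -/
def Sums : Set BetaN := {H | ∃ F ∈ Free, ∃ G ∈ Free, H = uadd F G}

/-- `ℕ* · ℕ*`. -/
def Prods : Set BetaN := {H | ∃ F ∈ Free, ∃ G ∈ Free, H = umul F G}

/-- Every member of `F` contains a set of the family `C` of finite sets. -/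
def Witnesses (F : BetaN) (C : Set (Finset ℕ+)) : Prop :=
  ∀ A ∈ F, ∃ S ∈ C, (S : Set ℕ+) ⊆ A

theorem mem_uadd (F G : BetaN) (A : Set ℕ+) :
    A ∈ uadd F G ↔ {n | {m | n + m ∈ A} ∈ G} ∈ F := by
  unfold uadd
  rw [← Ultrafilter.mem_coe]
  exact Filter.mem_bind'

theorem mem_umul (F G : BetaN) (A : Set ℕ+) :
    A ∈ umul F G ↔ {n | {m | n * m ∈ A} ∈ G} ∈ F := by
  unfold umul
  rw [← Ultrafilter.mem_coe]
  exact Filter.mem_bind'

/-! ### Sparse sets: every difference and every ratio occurs finitely often -/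

def Sparse (E : Set ℕ+) : Prop :=
  ∀ a b : ℕ+, a < b → {y | a + y ∈ E ∧ b + y ∈ E}.Finite ∧ {y | a * y ∈ E ∧ b * y ∈ E}.Finite

theorem Sparse.div {E : Set ℕ+} (h : Sparse E) (n : ℕ+) : Sparse {m | n * m ∈ E} := by
  intro a b hab
  have h1 := h (n * a) (n * b) (mul_lt_mul_right hab n)
  refine ⟨?_, ?_⟩
  · refine (h1.1.preimage (f := fun y => n * y) (mul_right_injective n).injOn).subset ?_
    intro y hy
    simpa only [Set.mem_preimage, Set.mem_ofPred_eq, mul_add] using hy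
  · simpa only [Set.mem_ofPred_eq, mul_assoc] using h1.2

theorem infinite_of_free {F : BetaN} (hF : F ∈ Free) {S : Set ℕ+} (hS : S ∈ F) : S.Infinite := by
  intro hfin
  obtain ⟨x, -, hx⟩ := Ultrafilter.eq_pure_of_finite_mem hfin hS
  exact hF x hx

theorem two_of_free {F : BetaN} (hF : F ∈ Free) {S : Set ℕ+} (hS : S ∈ F) :
    ∃ a ∈ S, ∃ b ∈ S, a < b := by
  obtain ⟨a, ha⟩ := Ultrafilter.nonempty_of_mem hS
  obtain ⟨b, hb, hab⟩ := (infinite_of_free hF hS).exists_gt a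
  exact ⟨a, ha, b, hb, hab⟩

/-- Ultrafilters without a sparse member. -/
def Thick : Set BetaN := {F | ∀ E, Sparse E → E ∉ F}

theorem isClosed_thick : IsClosed Thick := by
  have : Thick = ⋂ E : {E : Set ℕ+ // Sparse E}, {F : BetaN | (E.1)ᶜ ∈ F} := by
    ext F
    simp only [Thick, Set.mem_ofPred_eq, Set.mem_iInter, Ultrafilter.compl_mem_iff_notMem,
      Subtype.forall]
  rw [this]
  exact isClosed_iInter (fun A => ultrafilter_isClosed_basic _)

theorem sums_subset : Sums ⊆ Thick := by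
  rintro _ ⟨F, hF, G, hG, rfl⟩ E hE hm
  rw [mem_uadd] at hm
  obtain ⟨a, ha, b, hb, hab⟩ := two_of_free hF hm
  exact infinite_of_free hG (Filter.inter_mem ha hb) (hE a b hab).1

theorem prods_subset : Prods ⊆ Thick := by
  rintro _ ⟨F, hF, G, hG, rfl⟩ E hE hm
  rw [mem_umul] at hm
  obtain ⟨a, ha, b, hb, hab⟩ := two_of_free hF hm
  exact infinite_of_free hG (Filter.inter_mem ha hb) (hE a b hab).2

theorem thick_free : Thick ⊆ Free := by
  rintro F hF n rfl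
  refine hF {n} (fun a b hab => ⟨?_, ?_⟩) (by simp)
  · refine Set.finite_empty.subset ?_
    rintro y ⟨h1, h2⟩
    exact hab.ne (add_right_cancel (h1.trans h2.symm : a + y = b + y))
  · refine Set.finite_empty.subset ?_
    rintro y ⟨h1, h2⟩
    exact hab.ne (mul_right_cancel (h1.trans h2.symm : a * y = b * y))

theorem gamma_subset : Gamma ⊆ Thick := by
  apply closure_minimal _ isClosed_thick
  intro F hF
  have hF' : uadd F F = F := hF
  have hfree : F ∈ Free := by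
    rintro n rfl
    have h1 : ({n} : Set ℕ+) ∈ uadd (pure n) (pure n) := by
      rw [hF']
      simp
    rw [mem_uadd] at h1
    have h2 : n + n = n := by simpa using h1
    exact (PNat.lt_add_right n n).ne' h2
  exact sums_subset ⟨F, hfree, F, hfree, hF'.symm⟩

theorem thick_left (F G : BetaN) (hG : G ∈ Thick) : umul F G ∈ Thick := by
  intro E hE hm
  rw [mem_umul] at hm
  obtain ⟨n, hn⟩ := Ultrafilter.nonempty_of_mem hm
  exact hG _ (hE.div n) hn

theorem thick_right (G F : BetaN) (hG : G ∈ Thick) : umul G F ∈ Thick := by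
  by_cases hF : F ∈ Free
  · exact prods_subset ⟨G, thick_free hG, F, hF, rfl⟩
  · obtain ⟨m, rfl⟩ : ∃ m : ℕ+, F = pure m := by
      by_contra hc
      exact hF fun n hn => hc ⟨n, hn⟩
    intro E hE hm
    rw [mem_umul] at hm
    refine hG _ (hE.div m) ?_
    simpa only [Ultrafilter.mem_pure, Set.mem_ofPred_eq, mul_comm m] using hm

theorem ideal_subset : mulIdealGen Gamma ⊆ Thick := by
  rintro H (((h | ⟨F, G, hG, rfl⟩) | ⟨G, hG, F, rfl⟩) | ⟨F, G, hG, F', rfl⟩)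
  · exact gamma_subset h
  · exact thick_left _ _ (gamma_subset hG)
  · exact thick_right _ _ (gamma_subset hG)
  · exact thick_right _ _ (thick_left _ _ (gamma_subset hG))

/-! ### Every ultrafilter has a member that avoids finitely many given ratios -/

theorem avoid_one (U : BetaN) {p q : ℕ} (hq : 0 < q) (hpq : q < p) :
    ∃ D ∈ U, ∀ x ∈ D, ∀ y ∈ D, p * (x : ℕ) ≠ q * (y : ℕ) := by
  have hq' : (0 : ℝ) < q := by exact_mod_cast hq
  have hρ : (1 : ℝ) < (p : ℝ) / q := by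
    rw [one_lt_div hq']
    exact_mod_cast hpq
  have key : ∀ x y : ℕ+, p * (x : ℕ) = q * (y : ℕ) →
      ⌊Real.logb ((p : ℝ) / q) (y : ℕ)⌋ = ⌊Real.logb ((p : ℝ) / q) (x : ℕ)⌋ + 1 := by
    intro x y h
    have hx : (0 : ℝ) < (x : ℕ) := by exact_mod_cast x.pos
    have hy : ((y : ℕ) : ℝ) = (x : ℕ) * ((p : ℝ) / q) := by
      have : (p : ℝ) * (x : ℕ) = q * (y : ℕ) := by exact_mod_cast h
      field_simp
      linarith
    rw [hy, Real.logb_mul hx.ne' (by positivity), Real.logb_self_eq_one hρ, Int.floor_add_one]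
  rcases Ultrafilter.mem_or_compl_mem U {x : ℕ+ | Even ⌊Real.logb ((p : ℝ) / q) (x : ℕ)⌋} with
    h | h
  · refine ⟨_, h, fun x hx y hy hxy => ?_⟩
    rw [Set.mem_ofPred_eq] at hx hy
    rw [key x y hxy, Int.even_add_one] at hy
    exact hy hx
  · refine ⟨_, h, fun x hx y hy hxy => ?_⟩
    rw [Set.mem_compl_iff, Set.mem_ofPred_eq] at hx hy
    rw [key x y hxy, Int.even_add_one] at hy
    exact hy hx

theorem avoid (U : BetaN) (r : ℕ) :
    ∃ D ∈ U, ∀ x ∈ D, ∀ y ∈ D, ∀ p q : ℕ, 0 < q → q < p → p ≤ r → p * (x : ℕ) ≠ q * (y : ℕ) := by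
  have h : ∀ p q : ℕ, ∃ D ∈ U, 0 < q → q < p → ∀ x ∈ D, ∀ y ∈ D, p * (x : ℕ) ≠ q * (y : ℕ) := by
    intro p q
    by_cases hc : 0 < q ∧ q < p
    · obtain ⟨D, hD, h⟩ := avoid_one U hc.1 hc.2
      exact ⟨D, hD, fun _ _ => h⟩
    · exact ⟨Set.univ, Filter.univ_mem, fun h1 h2 => absurd ⟨h1, h2⟩ hc⟩
  choose D hD h using h
  refine ⟨⋂ p ∈ Finset.range (r + 1), ⋂ q ∈ Finset.range (r + 1), D p q, ?_, ?_⟩
  · exact (Filter.biInter_finset_mem _).2 fun p _ => (Filter.biInter_finset_mem _).2 fun q _ =>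
      hD p q
  · intro x hx y hy p q h1 h2 h3
    simp only [Set.mem_iInter, Finset.mem_range] at hx hy
    exact h p q h1 h2 x (hx p (by omega) q (by omega)) y (hy p (by omega) q (by omega))

/-! ### Finite Ramsey blocks -/

/-- `E` is nonempty and contains a set of each of the first families. -/
def Good (C : ℕ → Set (Finset ℕ+)) (n : ℕ) (E : Set ℕ+) : Prop :=
  E.Nonempty ∧ ∀ j ≤ n, ∃ S ∈ C j, (S : Set ℕ+) ⊆ E

theorem Good.mono {C : ℕ → Set (Finset ℕ+)} {n m : ℕ} {E E' : Set ℕ+} (h : Good C n E)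
    (hm : m ≤ n) (hE : E ⊆ E') : Good C m E' :=
  ⟨h.1.mono hE, fun j hj => by
    obtain ⟨S, hS, h1⟩ := h.2 j (hj.trans hm)
    exact ⟨S, hS, h1.trans hE⟩⟩

theorem block {C : ℕ → Set (Finset ℕ+)} {U : BetaN} (hU : ∀ j, Witnesses U (C j)) {D : Set ℕ+}
    (hD : D ∈ U) (r : ℕ) : ∃ N : ℕ, ∀ χ : ℕ+ → Fin (r + 1), ∃ c,
      Good C r {x | x ∈ D ∧ (x : ℕ) ≤ N ∧ χ x = c} := by
  by_contra hc
  push Not at hc
  choose χ hχ using hc
  have hlim : ∀ x : ℕ+, ∃ c, {N | χ N x = c} ∈ Filter.hyperfilter ℕ := by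
    intro x
    obtain ⟨c, hc⟩ := Ultrafilter.eq_pure_of_finite ((Filter.hyperfilter ℕ).map fun N => χ N x)
    refine ⟨c, ?_⟩
    have : ({c} : Set (Fin (r + 1))) ∈ (Filter.hyperfilter ℕ).map fun N => χ N x := by
      rw [hc]
      simp
    exact this
  choose ψ hψ using hlim
  obtain ⟨c, hc⟩ := Ultrafilter.eq_pure_of_finite (U.map ψ)
  have hcl : {x | ψ x = c} ∈ U := by
    have : ({c} : Set (Fin (r + 1))) ∈ U.map ψ := by
      rw [hc]
      simp
    exact this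
  have hE : D ∩ {x | ψ x = c} ∈ U := Filter.inter_mem hD hcl
  obtain ⟨x₀, hx₀⟩ := Ultrafilter.nonempty_of_mem hE
  choose S hS hSE using fun j => hU j _ hE
  have hpt : ∀ x : ℕ+, {N | (x : ℕ) ≤ N ∧ χ N x = ψ x} ∈ Filter.hyperfilter ℕ := by
    intro x
    refine Filter.inter_mem (Filter.hyperfilter_le_cofinite ?_) (hψ x)
    rw [Nat.cofinite_eq_atTop]
    exact Filter.mem_atTop _
  have hall : (⋂ x ∈ insert x₀ ((Finset.range (r + 1)).biUnion S),
      {N | (x : ℕ) ≤ N ∧ χ N x = ψ x}) ∈ Filter.hyperfilter ℕ :=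
    (Filter.biInter_finset_mem _).2 fun x _ => hpt x
  obtain ⟨N, hN⟩ := Ultrafilter.nonempty_of_mem hall
  simp only [Set.mem_iInter, Set.mem_ofPred_eq] at hN
  refine hχ N c ⟨⟨x₀, hx₀.1, ?_, ?_⟩, fun j hj => ⟨S j, hS j, fun x hx => ?_⟩⟩
  · exact (hN x₀ (Finset.mem_insert_self _ _)).1
  · exact (hN x₀ (Finset.mem_insert_self _ _)).2.trans hx₀.2
  · have hx' := hN x (Finset.mem_insert_of_mem
      (Finset.mem_biUnion.2 ⟨j, Finset.mem_range.2 (by omega), hx⟩))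
    exact ⟨(hSE j hx).1, hx'.1, hx'.2.trans (hSE j hx).2⟩

/-- A sequence of blocks inside `A`, far apart, very divisible and without small ratios. -/
theorem blocks {C : ℕ → Set (Finset ℕ+)} {U : BetaN} (hM : U ∈ MAX)
    (hU : ∀ j, Witnesses U (C j)) {A : Set ℕ+} (hA : A ∈ U) :
    ∃ (B : ℕ → Set ℕ+) (s : ℕ → ℕ), Monotone s ∧ (∀ r, 0 < s r) ∧ (∀ r, B r ⊆ A) ∧
      (∀ r, ∀ x ∈ B r, (r + 1).factorial * s r ∣ (x : ℕ) ∧ (x : ℕ) ≤ s (r + 1)) ∧
      (∀ r, ∀ x ∈ B r, ∀ y ∈ B r, ∀ p q : ℕ, 0 < q → q < p → p ≤ r →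
        p * (x : ℕ) ≠ q * (y : ℕ)) ∧
      ∀ r, ∀ χ : ℕ+ → Fin (r + 1), ∃ c, Good C r {x | x ∈ B r ∧ χ x = c} := by
  choose D hD hDav using avoid U
  have hE : ∀ r t : ℕ, {x | x ∈ A ∧ x ∈ D r ∧ (r + 1).factorial * (t + 1) ∣ (x : ℕ)} ∈ U := by
    intro r t
    have h1 := hM ⟨(r + 1).factorial * (t + 1), by positivity⟩
    filter_upwards [hA, hD r, h1] with x h2 h3 h4
    obtain ⟨k, rfl⟩ := h4
    exact ⟨h2, h3, Dvd.intro _ rfl⟩
  choose N hN using fun r t => block hU (hE r t) r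
  let t : ℕ → ℕ := fun r => Nat.rec 0 (fun r v => v + N r v) r
  have ht : ∀ r, t (r + 1) = t r + N r (t r) := fun r => rfl
  refine ⟨fun r => {x | (x ∈ A ∧ x ∈ D r ∧ (r + 1).factorial * (t r + 1) ∣ (x : ℕ)) ∧
    (x : ℕ) ≤ N r (t r)}, fun r => t r + 1, ?_, fun r => Nat.succ_pos _, fun r x hx => hx.1.1,
    fun r x hx => ⟨hx.1.2.2, ?_⟩, fun r x hx y hy => hDav r x hx.1.2.1 y hy.1.2.1, fun r χ => ?_⟩
  · refine monotone_nat_of_le_succ fun r => ?_
    rw [ht]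
    omega
  · have := hx.2
    have h2 := ht r
    change (x : ℕ) ≤ t (r + 1) + 1
    omega
  · obtain ⟨c, hc⟩ := hN r (t r) χ
    exact ⟨c, hc.mono le_rfl fun x hx => ⟨⟨hx.1, hx.2.1⟩, hx.2.2⟩⟩

theorem sparse_union {B : ℕ → Set ℕ+} {s : ℕ → ℕ} (hs : Monotone s) (hpos : ∀ r, 0 < s r)
    (hB : ∀ r, ∀ x ∈ B r, (r + 1).factorial * s r ∣ (x : ℕ) ∧ (x : ℕ) ≤ s (r + 1))
    (hav : ∀ r, ∀ x ∈ B r, ∀ y ∈ B r, ∀ p q : ℕ, 0 < q → q < p → p ≤ r →
      p * (x : ℕ) ≠ q * (y : ℕ)) : Sparse (⋃ r, B r) := by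
  have hlow : ∀ r, ∀ x ∈ B r, (r + 1) * s r ≤ (x : ℕ) := fun r x hx =>
    (Nat.mul_le_mul_right _ (Nat.self_le_factorial _)).trans (Nat.le_of_dvd x.pos (hB r x hx).1)
  have key : ∀ r, ∀ y ∈ B r, ∀ x ∈ ⋃ r, B r, (x : ℕ) < y →
      r + (x : ℕ) ≤ y ∧ ∀ p q : ℕ, 0 < q → q < p → p ≤ r → p * (x : ℕ) ≠ q * (y : ℕ) := by
    intro r y hy x hx hxy
    obtain ⟨r', hx⟩ := Set.mem_iUnion.1 hx
    rcases lt_trichotomy r' r with h | rfl | h
    · have h1 : (x : ℕ) ≤ s r := (hB r' x hx).2.trans (hs h)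
      have h2 := hlow r y hy
      have h3 := hpos r
      have h4 := x.pos
      refine ⟨by nlinarith, fun p q hq _ hp he => ?_⟩
      have h5 : p * (x : ℕ) ≤ r * s r := Nat.mul_le_mul hp h1
      have h6 : (y : ℕ) ≤ q * (y : ℕ) := Nat.le_mul_of_pos_left _ hq
      nlinarith
    · refine ⟨?_, hav r' x hx y hy⟩
      have h1 := Nat.le_of_dvd (Nat.sub_pos_of_lt hxy)
        (Nat.dvd_sub (hB r' y hy).1 (hB r' x hx).1)
      have h2 : (r' + 1) * 1 ≤ (r' + 1).factorial * s r' :=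
        Nat.mul_le_mul (Nat.self_le_factorial _) (hpos r')
      omega
    · have h1 : (y : ℕ) ≤ s r' := (hB r y hy).2.trans (hs h)
      have h2 := hlow r' x hx
      nlinarith
  have hfin : ∀ K : ℕ, {y : ℕ+ | (y : ℕ) ≤ K}.Finite := fun K =>
    (Set.finite_Iic K).preimage PNat.coe_injective.injOn
  intro a b hab
  have hab' : (a : ℕ) < b := hab
  refine ⟨(hfin (s (b + 1))).subset ?_, (hfin (s (b + 1))).subset ?_⟩
  · rintro y ⟨h1, h2⟩
    obtain ⟨r, h2⟩ := Set.mem_iUnion.1 h2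
    have h3 := (key r _ h2 _ h1 (by simp only [PNat.add_coe]; omega)).1
    have h4 := (hB r _ h2).2
    simp only [PNat.add_coe] at h3 h4
    have h5 : s (r + 1) ≤ s (b + 1) := hs (by omega)
    change (y : ℕ) ≤ _
    omega
  · rintro y ⟨h1, h2⟩
    obtain ⟨r, h2⟩ := Set.mem_iUnion.1 h2
    have h3 := (key r _ h2 _ h1 (by
      simp only [PNat.mul_coe]
      exact Nat.mul_lt_mul_of_pos_right hab' y.pos)).2 b a a.pos hab'
    have h4 := (hB r _ h2).2
    simp only [PNat.mul_coe] at h3 h4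
    have h5 : r ≤ b := by
      by_contra hc
      exact h3 (by omega) (by ring)
    have h6 : s (r + 1) ≤ s (b + 1) := hs (by omega)
    have h7 : (y : ℕ) ≤ b * (y : ℕ) := Nat.le_mul_of_pos_left _ b.pos
    change (y : ℕ) ≤ _
    omega

/-- An ultrafilter on the tails of the blocks all of whose members are good. -/
theorem exists_ultra {C : ℕ → Set (Finset ℕ+)} {B : ℕ → Set ℕ+}
    (hR : ∀ r, ∀ χ : ℕ+ → Fin (r + 1), ∃ c, Good C r {x | x ∈ B r ∧ χ x = c}) :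
    ∃ F : BetaN, ∀ E ∈ F, ∀ n, ∃ r, n ≤ r ∧ Good C n (E ∩ B r) := by
  classical
  obtain ⟨F, hF⟩ := Ultrafilter.exists_ultrafilter_of_finite_inter_nonempty
    {E : Set ℕ+ | ∃ n, ∀ r, n ≤ r → ¬ Good C n (Eᶜ ∩ B r)} (by
      intro T hT
      by_contra hne
      have hcov : ∀ x : ℕ+, ∃ E : T, x ∉ E.1 := by
        intro x
        by_contra hx
        exact hne ⟨x, fun E hE => by_contra fun h => hx ⟨⟨E, hE⟩, h⟩⟩
      choose φ hφ using hcov
      choose n hn using fun E : T => hT E.2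
      set r := Finset.univ.sup n + Fintype.card T with hr
      obtain ⟨e⟩ : Nonempty (T ↪ Fin (r + 1)) :=
        Function.Embedding.nonempty_of_card_le (by rw [Fintype.card_fin]; omega)
      obtain ⟨c, hc⟩ := hR r fun x => e (φ x)
      obtain ⟨x₀, hx₀⟩ := hc.1
      have hle : n (φ x₀) ≤ r :=
        (Finset.le_sup (f := n) (Finset.mem_univ _)).trans (Nat.le_add_right _ _)
      refine hn (φ x₀) r hle (hc.mono hle fun x hx => ⟨?_, hx.1⟩)
      have : φ x = φ x₀ := e.injective (hx.2.trans hx₀.2.symm)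
      rw [← this]
      exact hφ x)
  refine ⟨F, fun E hE n => ?_⟩
  by_contra hc
  have : Eᶜ ∈ F := hF ⟨n, fun r hr hg => hc ⟨r, hr, by rwa [compl_compl] at hg⟩⟩
  exact (Ultrafilter.compl_mem_iff_notMem.1 this) hE

/-- Every `U` in `MAX` is a limit of ultrafilters in `MAX` that witness any countably many given
families of finite sets witnessed by `U` and lie outside the closure of the multiplicative ideal
generated by `Γ`, of `ℕ* + ℕ*` and of `ℕ* · ℕ*`. -/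
theorem result (U : BetaN) (hM : U ∈ MAX) (A : Set ℕ+) (hA : A ∈ U)
    (C : ℕ → Set (Finset ℕ+)) (hU : ∀ j, Witnesses U (C j)) :
    ∃ F ∈ MAX, A ∈ F ∧ (∀ j, Witnesses F (C j)) ∧
      F ∉ closure (mulIdealGen Gamma ∪ Sums ∪ Prods) := by
  obtain ⟨B, s, hs, hpos, hBA, hB, hav, hR⟩ := blocks hM hU hA
  obtain ⟨F, hF⟩ := exists_ultra hR
  have hmem : ∀ (E : Set ℕ+) (n : ℕ), (∀ r, n ≤ r → B r ⊆ E) → E ∈ F := by
    intro E n h
    by_contra hc
    obtain ⟨r, hr, ⟨x, hx⟩, -⟩ := hF _ (Ultrafilter.compl_mem_iff_notMem.2 hc) n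
    exact hx.1 (h r hr hx.2)
  refine ⟨F, fun n => hmem _ n fun r hr x hx => ?_, hmem A 0 fun r _ => hBA r,
    fun j E hE => ?_, fun h => ?_⟩
  · have h1 : (n : ℕ) ∣ (x : ℕ) :=
      ((Nat.dvd_factorial n.pos (by omega)).mul_right _).trans (hB r x hx).1
    obtain ⟨c, hc⟩ := PNat.dvd_iff.mpr h1
    exact ⟨c, hc.symm⟩
  · obtain ⟨r, -, -, hg⟩ := hF E hE j
    obtain ⟨S, hS, h1⟩ := hg j le_rfl
    exact ⟨S, hS, h1.trans Set.inter_subset_left⟩
  · have h1 : F ∈ Thick := closure_minimal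
      (Set.union_subset (Set.union_subset ideal_subset sums_subset) prods_subset) isClosed_thick h
    exact h1 _ (sparse_union hs hpos hB hav) (hmem _ 0 fun r _ => Set.subset_iUnion B r)

theorem max_nonempty : MAX.Nonempty := by
  let f : ℕ → ℕ+ := fun k => ⟨k.factorial, k.factorial_pos⟩
  refine ⟨(Filter.hyperfilter ℕ).map f, fun n => ?_⟩
  rw [Ultrafilter.mem_map]
  refine Filter.hyperfilter_le_cofinite ?_
  rw [Nat.cofinite_eq_atTop]
  filter_upwards [Filter.mem_atTop (n : ℕ)] with k hk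
  obtain ⟨c, hc⟩ := PNat.dvd_iff.mpr
    (show ((n : ℕ+) : ℕ) ∣ ((f k : ℕ+) : ℕ) from Nat.dvd_factorial n.pos hk)
  exact ⟨c, hc.symm⟩

/-- The negated form of the question, even for the closure of the ideal. -/
theorem posed : ∃ F ∈ MAX, F ∉ closure (mulIdealGen Gamma) := by
  obtain ⟨U, hU⟩ := max_nonempty
  obtain ⟨F, hF, -, -, h⟩ := result U hU Set.univ Filter.univ_mem (fun _ => {∅})
    (fun _ A _ => ⟨∅, rfl, by simp⟩)
  exact ⟨F, hF, fun hc => h (closure_mono (fun _ hx => Or.inl (Or.inl hx)) hc)⟩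

end Pool.Agent.Results.MP_34bddf_lc.DenseOutside
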