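import Mathlib

set_option autoImplicit false

open Cardinal

namespace Pool.Agent.Results.MP_34bddf_lc.NotBorel

/-- `βℕ`: the ultrafilters on the positive integers, with Mathlib's Stone topology
(generated by the basic sets `{F | A ∈ F}`). -/
abbrev BetaN := Ultrafilter ℕ+

/-- The extension of addition: `A ∈ uadd F G` iff `{n | {m | n + m ∈ A} ∈ G} ∈ F`
(see `mem_uadd`). -/
def uadd (F G : BetaN) : BetaN := F.bind (fun n => G.map (fun m => n + m))

/-- The extension of multiplication: `A ∈ umul F G` iff `{n | {m | n * m ∈ A} ∈ G} ∈ F`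
(see `mem_umul`). -/
def umul (F G : BetaN) : BetaN := F.bind (fun n => G.map (fun m => n * m))

/-- `Γ`: the closure of the set of additive idempotents. -/
def Gamma : Set BetaN := closure {F | uadd F F = F}

/-- The two-sided multiplicative ideal generated by `T`:
`T ∪ βℕ·T ∪ T·βℕ ∪ βℕ·T·βℕ`. -/
def mulIdealGen (T : Set BetaN) : Set BetaN :=
  T ∪ {H | ∃ F, ∃ G ∈ T, H = umul F G} ∪ {H | ∃ G ∈ T, ∃ F, H = umul G F} ∪
    {H | ∃ F, ∃ G ∈ T, ∃ F', H = umul (umul F G) F'}

/-- `MAX`: the ultrafilters containing `nℕ` for every positive integer `n`. -/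
def MAX : Set BetaN := {F | ∀ n : ℕ+, Set.range (fun k : ℕ+ => n * k) ∈ F}

/-- `ℕ*`: the nonprincipal ultrafilters. -/
def Free : Set BetaN := {F | ∀ n : ℕ+, F ≠ pure n}

/-- `ℕ* · ℕ*`. -/
def Prods : Set BetaN := {H | ∃ F ∈ Free, ∃ G ∈ Free, H = umul F G}

theorem mem_uadd (F G : BetaN) (A : Set ℕ+) :
    A ∈ uadd F G ↔ {n | {m | n + m ∈ A} ∈ G} ∈ F := by
  unfold uadd
  rw [← Ultrafilter.mem_coe]
  exact Filter.mem_bind'

theorem mem_umul (F G : BetaN) (A : Set ℕ+) :
    A ∈ umul F G ↔ {n | {m | n * m ∈ A} ∈ G} ∈ F := by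
  unfold umul
  rw [← Ultrafilter.mem_coe]
  exact Filter.mem_bind'

theorem infinite_of_free {F : BetaN} (hF : F ∈ Free) {S : Set ℕ+} (hS : S ∈ F) : S.Infinite := by
  intro hfin
  obtain ⟨x, -, hx⟩ := Ultrafilter.eq_pure_of_finite_mem hfin hS
  exact hF x hx

theorem two_of_free {F : BetaN} (hF : F ∈ Free) {S : Set ℕ+} (hS : S ∈ F) :
    ∃ a ∈ S, ∃ b ∈ S, a < b := by
  obtain ⟨a, ha⟩ := Ultrafilter.nonempty_of_mem hS
  obtain ⟨b, hb, hab⟩ := (infinite_of_free hF hS).exists_gt a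
  exact ⟨a, ha, b, hb, hab⟩

/-! ### Thin sets: every difference occurs finitely often -/

def Thin (E : Set ℕ+) : Prop := ∀ a b : ℕ+, a < b → {y | a + y ∈ E ∧ b + y ∈ E}.Finite

theorem Thin.div {E : Set ℕ+} (h : Thin E) (n : ℕ+) : Thin {m | n * m ∈ E} := by
  intro a b hab
  have h1 := h (n * a) (n * b) (mul_lt_mul_right hab n)
  refine (h1.preimage (f := fun y => n * y) (mul_right_injective n).injOn).subset ?_
  intro y hy
  simpa only [Set.mem_preimage, Set.mem_ofPred_eq, mul_add] using hy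

/-- Ultrafilters without a thin member. -/
def Thick : Set BetaN := {F | ∀ E, Thin E → E ∉ F}

theorem isClosed_thick : IsClosed Thick := by
  have : Thick = ⋂ E : {E : Set ℕ+ // Thin E}, {F : BetaN | (E.1)ᶜ ∈ F} := by
    ext F
    simp only [Thick, Set.mem_ofPred_eq, Set.mem_iInter, Ultrafilter.compl_mem_iff_notMem,
      Subtype.forall]
  rw [this]
  exact isClosed_iInter (fun A => ultrafilter_isClosed_basic _)

theorem thick_free : Thick ⊆ Free := by
  rintro F hF n rfl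
  refine hF {n} (fun a b hab => Set.finite_empty.subset ?_) (by simp)
  rintro y ⟨h1, h2⟩
  exact hab.ne (add_right_cancel (h1.trans h2.symm : a + y = b + y))

theorem gamma_subset : Gamma ⊆ Thick := by
  apply closure_minimal _ isClosed_thick
  intro F hF
  have hF' : uadd F F = F := hF
  have hfree : F ∈ Free := by
    rintro n rfl
    have h1 : ({n} : Set ℕ+) ∈ uadd (pure n) (pure n) := by
      rw [hF']
      simp
    rw [mem_uadd] at h1
    have h2 : n + n = n := by simpa using h1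
    exact (PNat.lt_add_right n n).ne' h2
  intro E hE hm
  rw [← hF', mem_uadd] at hm
  obtain ⟨a, ha, b, hb, hab⟩ := two_of_free hfree hm
  exact infinite_of_free hfree (Filter.inter_mem ha hb) (hE a b hab)

theorem thick_left (F G : BetaN) (hG : G ∈ Thick) : umul F G ∈ Thick := by
  intro E hE hm
  rw [mem_umul] at hm
  obtain ⟨n, hn⟩ := Ultrafilter.nonempty_of_mem hm
  exact hG _ (hE.div n) hn

theorem thick_right (G F : BetaN) (hG : G ∈ Thick) : umul G F ∈ Thick ∪ Prods := by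
  by_cases hF : F ∈ Free
  · exact Or.inr ⟨G, thick_free hG, F, hF, rfl⟩
  · obtain ⟨m, rfl⟩ : ∃ m : ℕ+, F = pure m := by
      by_contra hc
      exact hF fun n hn => hc ⟨n, hn⟩
    refine Or.inl fun E hE hm => ?_
    rw [mem_umul] at hm
    refine hG _ (hE.div m) ?_
    simpa only [Ultrafilter.mem_pure, Set.mem_ofPred_eq, mul_comm m] using hm

theorem ideal_subset : mulIdealGen Gamma ⊆ Thick ∪ Prods := by
  rintro H (((h | ⟨F, G, hG, rfl⟩) | ⟨G, hG, F, rfl⟩) | ⟨F, G, hG, F', rfl⟩)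
  · exact Or.inl (gamma_subset h)
  · exact Or.inl (thick_left _ _ (gamma_subset hG))
  · exact thick_right _ _ (gamma_subset hG)
  · exact thick_right _ _ (thick_left _ _ (gamma_subset hG))

theorem gamma_nonempty : Gamma.Nonempty := by
  let _ : AddSemigroup BetaN := Ultrafilter.addSemigroup
  have : Nonempty BetaN := ⟨pure 1⟩
  obtain ⟨p, hp⟩ := exists_idempotent_of_compact_t2_of_continuous_add_left (M := BetaN)
    Ultrafilter.continuous_add_left
  refine ⟨p, subset_closure (Ultrafilter.ext fun A => ?_)⟩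
  rw [mem_uadd]
  conv_rhs => rw [← hp]
  exact Iff.rfl

/-! ### Every ultrafilter has a member that avoids finitely many given ratios -/

theorem avoid_one (U : BetaN) {p q : ℕ} (hq : 0 < q) (hpq : q < p) :
    ∃ D ∈ U, ∀ x ∈ D, ∀ y ∈ D, p * (x : ℕ) ≠ q * (y : ℕ) := by
  have hq' : (0 : ℝ) < q := by exact_mod_cast hq
  have hρ : (1 : ℝ) < (p : ℝ) / q := by
    rw [one_lt_div hq']
    exact_mod_cast hpq
  have key : ∀ x y : ℕ+, p * (x : ℕ) = q * (y : ℕ) →
      ⌊Real.logb ((p : ℝ) / q) (y : ℕ)⌋ = ⌊Real.logb ((p : ℝ) / q) (x : ℕ)⌋ + 1 := by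
    intro x y h
    have hx : (0 : ℝ) < (x : ℕ) := by exact_mod_cast x.pos
    have hy : ((y : ℕ) : ℝ) = (x : ℕ) * ((p : ℝ) / q) := by
      have : (p : ℝ) * (x : ℕ) = q * (y : ℕ) := by exact_mod_cast h
      field_simp
      linarith
    rw [hy, Real.logb_mul hx.ne' (by positivity), Real.logb_self_eq_one hρ, Int.floor_add_one]
  rcases Ultrafilter.mem_or_compl_mem U {x : ℕ+ | Even ⌊Real.logb ((p : ℝ) / q) (x : ℕ)⌋} with
    h | h
  · refine ⟨_, h, fun x hx y hy hxy => ?_⟩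
    rw [Set.mem_ofPred_eq] at hx hy
    rw [key x y hxy, Int.even_add_one] at hy
    exact hy hx
  · refine ⟨_, h, fun x hx y hy hxy => ?_⟩
    rw [Set.mem_compl_iff, Set.mem_ofPred_eq] at hx hy
    rw [key x y hxy, Int.even_add_one] at hy
    exact hy hx

theorem avoid (U : BetaN) (r : ℕ) :
    ∃ D ∈ U, ∀ x ∈ D, ∀ y ∈ D, ∀ p q : ℕ, 0 < q → q < p → p ≤ r → p * (x : ℕ) ≠ q * (y : ℕ) := by
  have h : ∀ p q : ℕ, ∃ D ∈ U, 0 < q → q < p → ∀ x ∈ D, ∀ y ∈ D, p * (x : ℕ) ≠ q * (y : ℕ) := by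
    intro p q
    by_cases hc : 0 < q ∧ q < p
    · obtain ⟨D, hD, h⟩ := avoid_one U hc.1 hc.2
      exact ⟨D, hD, fun _ _ => h⟩
    · exact ⟨Set.univ, Filter.univ_mem, fun h1 h2 => absurd ⟨h1, h2⟩ hc⟩
  choose D hD h using h
  refine ⟨⋂ p ∈ Finset.range (r + 1), ⋂ q ∈ Finset.range (r + 1), D p q, ?_, ?_⟩
  · exact (Filter.biInter_finset_mem _).2 fun p _ => (Filter.biInter_finset_mem _).2 fun q _ =>
      hD p q
  · intro x hx y hy p q h1 h2 h3
    simp only [Set.mem_iInter, Finset.mem_range] at hx hy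
    exact h p q h1 h2 x (hx p (by omega) q (by omega)) y (hy p (by omega) q (by omega))

/-! ### Blocks that lie far apart -/

/-- the scale of the block number `t` -/
def Mp (t : ℕ) : ℕ+ := ⟨t.factorial * t.factorial, Nat.mul_pos t.factorial_pos t.factorial_pos⟩

theorem Mp_val (t : ℕ) : (Mp t : ℕ) = t.factorial * t.factorial := rfl

theorem Mp_mono {s t : ℕ} (h : s ≤ t) : (Mp s : ℕ) ≤ Mp t :=
  Nat.mul_le_mul (Nat.factorial_le h) (Nat.factorial_le h)

theorem le_Mp (t : ℕ) : t ≤ Mp t :=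
  t.self_le_factorial.trans (Nat.le_mul_of_pos_right _ t.factorial_pos)

/-- the block number `t` built on `X` -/
def Blk (X : Set ℕ+) (t : ℕ) : Set ℕ+ := {y | ∃ x ∈ X, (x : ℕ) ≤ t ∧ y = x * Mp t}

theorem blk_pos {X : Set ℕ+} {t : ℕ} {y : ℕ+} (h : y ∈ Blk X t) : 1 ≤ t := by
  obtain ⟨x, -, hx, -⟩ := h
  exact le_trans x.pos hx

theorem blk_le {X : Set ℕ+} {t N : ℕ} {y : ℕ+} (h : y ∈ Blk X t) (ht : t ≤ N) :
    (y : ℕ) ≤ N * Mp N := by
  obtain ⟨x, -, hx, rfl⟩ := h
  rw [PNat.mul_coe]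
  exact Nat.mul_le_mul (hx.trans ht) (Mp_mono ht)

theorem blk_lt {X X' : Set ℕ+} {t t' : ℕ} {y y' : ℕ+} (h : y ∈ Blk X t) (h' : y' ∈ Blk X' t')
    (ht : t < t') : t' * (y : ℕ) ≤ y' := by
  obtain ⟨s, rfl⟩ : ∃ s, t' = s + 1 := ⟨t' - 1, by omega⟩
  have h1 := blk_le h (show t ≤ s by omega)
  obtain ⟨x', -, -, rfl⟩ := h'
  rw [PNat.mul_coe]
  calc (s + 1) * (y : ℕ) ≤ (s + 1) * ((s + 1) * Mp s) :=
        Nat.mul_le_mul_left _ (h1.trans (Nat.mul_le_mul_right _ (by omega)))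
    _ = Mp (s + 1) := by
        simp only [Mp_val, Nat.factorial_succ]
        ring
    _ ≤ _ := Nat.le_mul_of_pos_left _ x'.pos

theorem thin_blk : Thin (⋃ t, Blk Set.univ t) := by
  intro a b hab
  refine ((Set.finite_le_nat (b * Mp b)).preimage PNat.coe_injective.injOn).subset ?_
  rintro y ⟨h1, h2⟩
  obtain ⟨t, h1⟩ := Set.mem_iUnion.1 h1
  obtain ⟨t', h2⟩ := Set.mem_iUnion.1 h2
  have hab' : (a : ℕ) < b := hab
  have p1 := blk_pos h1
  show (y : ℕ) ≤ b * Mp b
  rcases lt_trichotomy t t' with h | rfl | h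
  · have h3 := blk_lt h1 h2 h
    rw [PNat.add_coe, PNat.add_coe] at h3
    have h4 : 2 * ((a : ℕ) + y) ≤ t' * (a + y) := Nat.mul_le_mul_right _ (by omega)
    exact le_trans (by omega) (Nat.le_mul_of_pos_right _ (Mp b).pos)
  · have h3 : t ≤ b := by
      obtain ⟨x, -, -, e⟩ := h1
      obtain ⟨x', -, -, e'⟩ := h2
      have e1 : (a : ℕ) + y = x * Mp t := by exact_mod_cast congrArg PNat.val e
      have e2 : (b : ℕ) + y = x' * Mp t := by exact_mod_cast congrArg PNat.val e'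
      have h4 : (x : ℕ) < x' := Nat.lt_of_mul_lt_mul_right (a := Mp t) (by omega)
      have h5 : ((x : ℕ) + 1) * Mp t ≤ x' * Mp t := Nat.mul_le_mul_right _ h4
      have h6 := le_Mp t
      rw [add_mul] at h5
      omega
    have h4 := blk_le h1 h3
    rw [PNat.add_coe] at h4
    omega
  · have h3 := blk_lt h2 h1 h
    rw [PNat.add_coe, PNat.add_coe] at h3
    have h4 : 1 * ((b : ℕ) + y) ≤ t * (b + y) := Nat.mul_le_mul_right _ p1
    omega

theorem same_blk {X X' : Set ℕ+} {t t' N : ℕ} {n n' m : ℕ+} (h : n * m ∈ Blk X t)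
    (h' : n' * m ∈ Blk X' t') (hn : (n : ℕ) ≤ N) (hn' : (n' : ℕ) ≤ N) (hm : N * Mp N < m) :
    t = t' := by
  have key : ∀ {X X' : Set ℕ+} {t t' : ℕ} {n n' : ℕ+}, n * m ∈ Blk X t → n' * m ∈ Blk X' t' →
      (n' : ℕ) ≤ N → ¬ t < t' := by
    intro X X' t t' n n' h h' hn' ht
    have h1 := blk_lt h h' ht
    rw [PNat.mul_coe, PNat.mul_coe, ← mul_assoc] at h1
    have h2 : t' * (n : ℕ) ≤ n' := Nat.le_of_mul_le_mul_right h1 m.pos
    have h3 : t' ≤ N := ((Nat.le_mul_of_pos_right _ n.pos).trans h2).trans hn'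
    have h4 := blk_le h' h3
    rw [PNat.mul_coe] at h4
    have h5 : (m : ℕ) ≤ n' * m := Nat.le_mul_of_pos_left _ n'.pos
    omega
  have h1 := key h h' hn'
  have h2 := key h' h hn
  omega

theorem mem_phi {p : BetaN} {q : Ultrafilter ℕ} (hq : ∀ n : ℕ, q ≠ pure n) {X : Set ℕ+}
    (hX : X ∈ p) {T : Set ℕ} (hT : T ∈ q) : (⋃ t ∈ T, Blk X t) ∈ umul p (q.map Mp) := by
  rw [mem_umul]
  refine Filter.mem_of_superset hX fun x hx => ?_
  have h1 : {t : ℕ | t < x}ᶜ ∈ q := by
    rw [Ultrafilter.compl_mem_iff_notMem]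
    intro h
    obtain ⟨n, -, hn⟩ := Ultrafilter.eq_pure_of_finite_mem (Set.finite_lt_nat x) h
    exact hq n hn
  show _ ∈ q.map Mp
  rw [Ultrafilter.mem_map]
  refine Filter.mem_of_superset (Filter.inter_mem hT h1) fun t ht => ?_
  exact Set.mem_iUnion₂.2 ⟨t, ht.1, x, hx, not_lt.1 ht.2, rfl⟩

/-! ### Closed subsets of the ideal contain few products -/

theorem exists_discrete {S : Set (Ultrafilter ℕ)} (hS : S.Infinite) :
    ∃ (q : ℕ → Ultrafilter ℕ) (T : ℕ → Set ℕ), (∀ i, q i ∈ S) ∧ (∀ i, T i ∈ q i) ∧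
      ∀ i j t, t ∈ T i → t ∈ T j → i = j := by
  have := hS.to_subtype
  obtain ⟨U, hU, ho, hd⟩ := exists_seq_infinite_isOpen_pairwise_disjoint S
  choose q hq using fun n => (hU n).nonempty
  have h : ∀ n, ∃ T ∈ (q n).1, ∀ u : S, T ∈ u.1 → u ∈ U n := by
    intro n
    obtain ⟨V, hV, e⟩ := isOpen_induced_iff.1 (ho n)
    have h1 : (q n).1 ∈ V := by
      have := hq n
      rwa [← e] at this
    obtain ⟨_, ⟨T, rfl⟩, h2, h3⟩ := ultrafilterBasis_is_basis.exists_subset_of_mem_open h1 hV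
    exact ⟨T, h2, fun u hu => e ▸ h3 hu⟩
  choose T hT h using h
  refine ⟨fun i => q i, fun i => T i ∩ ⋂ j ∈ Finset.range i, (T j)ᶜ, fun i => (q i).2,
    fun i => Filter.inter_mem (hT i) ((Filter.biInter_finset_mem _).2 fun j hj => ?_), ?_⟩
  · refine Ultrafilter.compl_mem_iff_notMem.2 fun hc => ?_
    exact Set.disjoint_left.1 (hd (Finset.mem_range.1 hj).ne) (h j _ hc) (hq i)
  · intro i j t hi hj
    simp only [Set.mem_inter_iff, Set.mem_iInter, Finset.mem_range, Set.mem_compl_iff] at hi hj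
    rcases lt_trichotomy i j with h | h | h
    · exact absurd hi.1 (hj.2 i h)
    · exact h
    · exact absurd hj.1 (hi.2 j h)

theorem finite_of_closed (p : BetaN) {K : Set BetaN} (hK : IsClosed K) (hs : K ⊆ Thick ∪ Prods) :
    {q : Ultrafilter ℕ | (∀ n : ℕ, q ≠ pure n) ∧ umul p (q.map Mp) ∈ K}.Finite := by
  by_contra hc
  obtain ⟨q, T, hq, hT, hd⟩ := exists_discrete hc
  choose X hX hav using avoid p
  obtain ⟨F, hFK, hF⟩ := hK.isCompact.ultrafilter_le_nhds
    ((Filter.hyperfilter ℕ).map fun i => umul p ((q i).map Mp))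
    (Filter.le_principal_iff.2 (Filter.mem_map.2 (Filter.univ_mem' fun i => (hq i).2)))
  have hB : ∀ k : ℕ, {y | ∃ i, k ≤ i ∧ ∃ t ∈ T i, y ∈ Blk (X i) t} ∈ F := by
    intro k
    have h0 := (ultrafilter_isClosed_basic
      {y | ∃ i, k ≤ i ∧ ∃ t ∈ T i, y ∈ Blk (X i) t}).mem_of_tendsto
      (b := (Filter.hyperfilter ℕ : Filter ℕ)) (f := fun i => umul p ((q i).map Mp)) hF
    refine h0 (Filter.hyperfilter_le_cofinite ?_)
    rw [Nat.cofinite_eq_atTop]
    filter_upwards [Filter.mem_atTop k] with i hi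
    refine Filter.mem_of_superset (mem_phi (hq i).1 (hX i) (hT i)) fun y hy => ?_
    obtain ⟨t, ht, hy⟩ := Set.mem_iUnion₂.1 hy
    exact ⟨i, hi, t, ht, hy⟩
  rcases hs hFK with h | ⟨a, ha, b, hb, rfl⟩
  · refine h _ thin_blk (Filter.mem_of_superset (hB 0) ?_)
    rintro y ⟨i, -, t, -, x, -, hx⟩
    exact Set.mem_iUnion.2 ⟨t, x, trivial, hx⟩
  · obtain ⟨n, hn, n', hn', hlt⟩ := two_of_free ha ((mem_umul _ _ _).1 (hB 0))
    obtain ⟨n'', hn''⟩ := Ultrafilter.nonempty_of_mem ((mem_umul _ _ _).1 (hB n'))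
    have hlt' : (n : ℕ) < n' := hlt
    obtain ⟨m, ⟨⟨⟨i, -, t, ht, h1⟩, ⟨i', -, t', ht', h2⟩⟩, ⟨i'', hi, t'', ht'', h3⟩⟩, hm⟩ :=
      (infinite_of_free hb (Filter.inter_mem (Filter.inter_mem hn hn') hn'')).exists_notMem_finite
        ((Set.finite_le_nat (((n' : ℕ) + n'') * Mp (n' + n''))).preimage
          PNat.coe_injective.injOn)
    have hm' : ((n' : ℕ) + n'') * Mp (n' + n'') < m := not_le.1 hm
    obtain rfl := same_blk h1 h2 (by omega) (by omega) hm'
    obtain rfl := same_blk h1 h3 (by omega) (by omega) hm'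
    obtain rfl := hd _ _ _ ht ht'
    obtain rfl := hd _ _ _ ht ht''
    obtain ⟨x, hx, -, e⟩ := h1
    obtain ⟨x', hx', -, e'⟩ := h2
    refine hav i x hx x' hx' n' n n.pos hlt' hi ?_
    have e1 : (n : ℕ) * m = x * Mp t := by exact_mod_cast congrArg PNat.val e
    have e2 : (n' : ℕ) * m = x' * Mp t := by exact_mod_cast congrArg PNat.val e'
    refine Nat.eq_of_mul_eq_mul_right (Mp t).pos ?_
    rw [mul_assoc, mul_assoc, ← e1, ← e2]
    ring

/-! ### There are many ultrafilters -/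

theorem many : 2 ^ 𝔠 ≤ #(Ultrafilter ℕ) := by
  classical
  let _ : TopologicalSpace (ℕ × Finset (Finset ℕ)) := ⊥
  let r : ℕ → Set ℕ → Finset ℕ := fun n a => (Finset.range n).filter (· ∈ a)
  let e : ℕ × Finset (Finset ℕ) → Set ℕ → Bool := fun d a => decide (r d.1 a ∈ d.2)
  have hd : DenseRange e := by
    intro f
    rw [mem_closure_iff_nhds]
    intro U hU
    rw [nhds_pi, Filter.mem_pi] at hU
    obtain ⟨I, hI, t, ht, hU⟩ := hU
    have h1 : ∀ᶠ n in Filter.atTop, ∀ a ∈ I, ∀ b ∈ I, r n a = r n b → a = b := by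
      refine (Filter.eventually_all_finite hI).2 fun a _ =>
        (Filter.eventually_all_finite hI).2 fun b _ => ?_
      by_cases hab : a = b
      · exact Filter.Eventually.of_forall fun _ _ => hab
      · obtain ⟨k, hk⟩ := not_forall.1 fun h => hab (Set.ext h)
        filter_upwards [Filter.eventually_gt_atTop k] with n hn h
        have h2 := Finset.ext_iff.1 h k
        simp only [r, Finset.mem_filter, Finset.mem_range, hn, true_and] at h2
        exact absurd h2 hk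
    obtain ⟨n, hn⟩ := h1.exists
    refine ⟨e (n, (hI.toFinset.filter fun a => f a = true).image (r n)), hU fun a ha => ?_,
      Set.mem_range_self _⟩
    have h2 : e (n, (hI.toFinset.filter fun a => f a = true).image (r n)) a = f a := by
      rw [Bool.eq_iff_iff]
      simp only [e, decide_eq_true_eq, Finset.mem_image, Finset.mem_filter,
        Set.Finite.mem_toFinset]
      constructor
      · rintro ⟨b, ⟨hb, hf⟩, h⟩
        rwa [← hn b hb a ha h]
      · exact fun h => ⟨a, ⟨ha, h⟩, rfl⟩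
    rw [h2]
    exact mem_of_mem_nhds (ht a)
  have hs : Function.Surjective (Ultrafilter.extend e) := by
    have hc := (isCompact_range (continuous_ultrafilter_extend e)).isClosed
    refine Set.range_eq_univ.1 (Set.eq_univ_of_univ_subset ?_)
    rw [← hd.closure_range]
    refine closure_minimal ?_ hc
    rintro _ ⟨d, rfl⟩
    exact ⟨pure d, ultrafilter_extend_pure e d⟩
  obtain ⟨g, hg⟩ := exists_injective_nat (ℕ × Finset (Finset ℕ))
  calc 2 ^ 𝔠 = #(Set ℕ → Bool) := by simp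
    _ ≤ #(Ultrafilter (ℕ × Finset (Finset ℕ))) := mk_le_of_surjective hs
    _ ≤ #(Ultrafilter ℕ) := mk_le_of_injective (f := Ultrafilter.map g) fun u v h =>
        Ultrafilter.coe_injective (Filter.map_injective hg (congrArg Ultrafilter.toFilter h))

/-- The ideal generated by `Γ` is not a union of fewer than `2 ^ 𝔠` closed sets. -/
theorem result (C : Set (Set BetaN)) (hC : ∀ K ∈ C, IsClosed K)
    (hU : ⋃₀ C = mulIdealGen Gamma) : 2 ^ continuum ≤ Cardinal.mk C := by
  by_contra hc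
  rw [not_le] at hc
  obtain ⟨p, hp⟩ := gamma_nonempty
  let S : C → Set (Ultrafilter ℕ) := fun K =>
    {q : Ultrafilter ℕ | (∀ n : ℕ, q ≠ pure n) ∧ umul p (q.map Mp) ∈ K.1}
  have hS : ∀ K, (S K).Finite := fun K => finite_of_closed p (hC _ K.2)
    ((Set.subset_sUnion_of_mem K.2).trans (hU ▸ ideal_subset))
  have hcov : (Set.univ : Set (Ultrafilter ℕ)) ⊆ Set.range pure ∪ ⋃ K, S K := by
    intro q _
    by_cases hq : ∀ n : ℕ, q ≠ pure n
    · have h1 : umul p (q.map Mp) ∈ ⋃₀ C := hU ▸ Or.inl (Or.inr ⟨p, hp, _, rfl⟩)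
      obtain ⟨K, hK, h2⟩ := h1
      exact Or.inr (Set.mem_iUnion.2 ⟨⟨K, hK⟩, hq, h2⟩)
    · push Not at hq
      obtain ⟨n, hn⟩ := hq
      exact Or.inl ⟨n, hn.symm⟩
  have h0 : ℵ₀ < (2 : Cardinal.{0}) ^ 𝔠 := aleph0_lt_continuum.trans (cantor _)
  have h1 : #(Ultrafilter ℕ) ≤ ℵ₀ + #C * ℵ₀ := by
    rw [← mk_univ]
    refine (mk_le_mk_of_subset hcov).trans ((mk_union_le _ _).trans (add_le_add ?_ ?_))
    · exact mk_range_le.trans mk_nat.le
    · refine mk_iUnion_le_sum_mk.trans ?_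
      rw [← sum_const']
      exact sum_le_sum _ _ fun K => (hS K).lt_aleph0.le
  exact (add_lt_of_lt h0.le h0 (mul_lt_of_lt h0.le hc h0)).not_ge (many.trans h1)

/-! ### Consequences -/

/-- unions of at most continuum many closed sets -/
def Small (S : Set BetaN) : Prop :=
  ∃ (ι : Type) (K : ι → Set BetaN), #ι ≤ 𝔠 ∧ (∀ i, IsClosed (K i)) ∧ ⋃ i, K i = S

theorem small_of_borel {S : Set BetaN} (h : @MeasurableSet BetaN (borel BetaN) S) : Small S := by
  suffices Small S ∧ Small Sᶜ from this.1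
  induction S, h using MeasurableSpace.generateFrom_induction with
  | hC U hU _ =>
    refine ⟨⟨{A : Set ℕ+ // {F : BetaN | A ∈ F} ⊆ U}, fun A => {F | A.1 ∈ F}, ?_,
      fun A => ultrafilter_isClosed_basic _, ?_⟩,
      Unit, fun _ => Uᶜ, by simpa using one_le_aleph0.trans aleph0_le_continuum,
      fun _ => IsOpen.isClosed_compl hU, Set.iUnion_const _⟩
    · exact (mk_subtype_le _).trans (by simp)
    · refine Set.Subset.antisymm (Set.iUnion_subset fun A => A.2) fun F hF => ?_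
      obtain ⟨_, ⟨A, rfl⟩, h2, h3⟩ := ultrafilterBasis_is_basis.exists_subset_of_mem_open hF hU
      exact Set.mem_iUnion.2 ⟨⟨A, h3⟩, h2⟩
  | empty =>
    exact ⟨⟨Empty, fun _ => ∅, by simp, fun _ => isClosed_empty, by simp⟩,
      Unit, fun _ => Set.univ, by simpa using one_le_aleph0.trans aleph0_le_continuum,
      fun _ => isClosed_univ, by simp [Set.iUnion_const]⟩
  | compl S _ ih => exact ⟨ih.2, by rw [compl_compl]; exact ih.1⟩
  | iUnion S _ ih =>
    choose ι K hι hK e using fun n => (ih n).1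
    choose ι' K' hι' hK' e' using fun n => (ih n).2
    refine ⟨⟨Σ n, ι n, fun x => K x.1 x.2, ?_, fun x => hK _ _, ?_⟩,
      ∀ n, ι' n, fun f => ⋂ n, K' n (f n), ?_, fun f => isClosed_iInter fun n => hK' _ _, ?_⟩
    · rw [mk_sigma]
      refine (sum_le_sum _ (fun _ => 𝔠) hι).trans ?_
      rw [sum_const', mk_nat, aleph0_mul_continuum]
    · rw [Set.iUnion_sigma]
      exact Set.iUnion_congr e
    · rw [mk_pi]
      refine (prod_le_prod _ (fun _ => 𝔠) hι').trans ?_
      rw [prod_const', mk_nat, continuum_power_aleph0]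
    · rw [Set.compl_iUnion]
      ext F
      simp only [← e', Set.mem_iUnion, Set.mem_iInter]
      exact (Classical.skolem (p := fun n i => F ∈ K' n i)).symm

/-- The ideal generated by `Γ` is not a Borel set. -/
theorem not_borel : ¬ @MeasurableSet BetaN (borel BetaN) (mulIdealGen Gamma) := by
  intro h
  obtain ⟨ι, K, hι, hK, e⟩ := small_of_borel h
  have h1 := result (Set.range K) (Set.forall_mem_range.2 hK) (by rw [Set.sUnion_range, e])
  exact (cantor _).not_ge (h1.trans (mk_range_le.trans hι))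

/-- The negative answer to the question: `MAX` is closed. -/
theorem posed : MAX ≠ mulIdealGen Gamma := by
  intro h
  have h1 : IsClosed MAX := by
    have : MAX = ⋂ n : ℕ+, {F : BetaN | Set.range (fun k : ℕ+ => n * k) ∈ F} := by
      ext F
      simp [MAX]
    rw [this]
    exact isClosed_iInter fun n => ultrafilter_isClosed_basic _
  refine not_borel ?_
  rw [← h]
  let _ := borel BetaN
  have : BorelSpace BetaN := ⟨rfl⟩
  exact h1.measurableSet

end Pool.Agent.Results.MP_34bddf_lc.NotBorel
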